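import Pool.Agent.Y552.CT.Stm2

set_option autoImplicit false

/-! Project CT2 (helper552), job CT2-FLAG-CR: complete flags exist, and `G / U 1` is virtually
abelian. -/

namespace Pool.Agent.Y220.CT

open Pool.Agent.Y552.CT

universe u v

section

variable {G : Type u} [Group G] {V : Type v} [AddCommGroup V] [Module ℂ V]

/-- stable subspaces -/
def Stb (ρ : G →* Module.End ℂ V) (W : Submodule ℂ V) : Prop := ∀ g : G, ∀ v ∈ W, ρ g v ∈ W

/-- the next subspace -/
theorem exists_next [FiniteDimensional ℂ V] (ρ : G →* Module.End ℂ V) (W : Submodule ℂ V)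
    (_hW : Stb ρ W) : ∃ W' : Submodule ℂ V, Stb ρ W' ∧ W ≤ W' ∧ (W = ⊤ ∨ W < W') ∧
      ∀ U : Submodule ℂ V, W ≤ U → U ≤ W' → Stb ρ U → U = W ∨ U = W' := by
  by_cases h : W = ⊤
  · subst h
    refine ⟨⊤, fun _ _ _ => Submodule.mem_top, le_rfl, Or.inl rfl, fun U h1 _ _ => ?_⟩
    exact Or.inl (top_le_iff.1 h1)
  · obtain ⟨W', ⟨h1, h2⟩, h3⟩ := WellFounded.has_min (wellFounded_lt (α := Submodule ℂ V))
      {U : Submodule ℂ V | Stb ρ U ∧ W < U} ⟨⊤, fun _ _ _ => Submodule.mem_top, lt_top_iff_ne_top.2 h⟩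
    refine ⟨W', h1, h2.le, Or.inr h2, fun U h4 h5 h6 => ?_⟩
    rcases h4.eq_or_lt with h7 | h7
    · exact Or.inl h7.symm
    · rcases h5.eq_or_lt with h8 | h8
      · exact Or.inr h8
      · exact absurd h8 (h3 U ⟨h6, h7⟩)

end

theorem flag : S_FLAG.{u, v} := by
  intro G _ V _ _ _ ρ
  choose nx hnx using fun W : {W : Submodule ℂ V // Stb ρ W} => exists_next ρ W.1 W.2
  let S : ℕ → {W : Submodule ℂ V // Stb ρ W} := fun n =>
    Nat.rec ⟨⊥, fun g v hv => by
      rw [Submodule.mem_bot] at hv ⊢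
      rw [hv, map_zero]⟩ (fun _ W => ⟨nx W, (hnx W).1⟩) n
  have hS : ∀ n, (S (n + 1)).1 = nx (S n) := fun n => rfl
  have hdim : ∀ n, (S n).1 = ⊤ ∨ n ≤ Module.finrank ℂ (S n).1 := by
    intro n
    induction n with
    | zero => exact Or.inr (Nat.zero_le _)
    | succ n ih =>
      rcases (hnx (S n)).2.2.1 with h | h
      · left
        have h1 := (hnx (S n)).2.1
        rw [hS]
        rw [h] at h1
        exact top_le_iff.1 h1
      · right
        rcases ih with h1 | h1
        · rw [h1] at h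
          exact absurd h not_top_lt
        · have h2 := Submodule.finrank_lt_finrank_of_lt h
          rw [hS]
          omega
  exact ⟨{
    F := fun n => (S n).1
    l := Module.finrank ℂ V + 1
    mono := monotone_nat_of_le_succ fun n => by
      rw [hS]
      exact (hnx (S n)).2.1
    zero := rfl
    top := by
      rcases hdim (Module.finrank ℂ V + 1) with h | h
      · exact h
      · have := Submodule.finrank_le (S (Module.finrank ℂ V + 1)).1
        omega
    stable := fun i => (S i).2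
    irred := fun i W h1 h2 h3 => by
      rw [hS] at h2 ⊢
      exact (hnx (S i)).2.2.2 W h1 h2 h3 }⟩

section

variable {G : Type u} [Group G] {V : Type v} [AddCommGroup V] [Module ℂ V]
  {ρ : G →* Module.End ℂ V}

/-- the representation on a member of the flag -/
def rE (F : Flag ρ) (i : ℕ) : G →* Module.End ℂ (F.F i) where
  toFun g := (ρ g).restrict (F.stable i g)
  map_one' := by
    ext x
    simp
  map_mul' a b := by
    ext x
    simp

theorem rE_apply (F : Flag ρ) (i : ℕ) (g : G) (x : F.F i) : ((rE F i g x : F.F i) : V) = ρ g x :=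
  rfl

/-- the previous member -/
def NN (F : Flag ρ) (i : ℕ) : Submodule ℂ (F.F (i + 1)) :=
  (F.F i).comap (F.F (i + 1)).subtype

theorem mem_NN (F : Flag ρ) (i : ℕ) (x : F.F (i + 1)) : x ∈ NN F i ↔ (x : V) ∈ F.F i := Iff.rfl

theorem NN_le (F : Flag ρ) (i : ℕ) (g : G) : NN F i ≤ (NN F i).comap (rE F (i + 1) g) := by
  intro x hx
  rw [Submodule.mem_comap, mem_NN, rE_apply]
  exact F.stable i g _ hx

/-- the representation on the quotient -/
noncomputable def rW (F : Flag ρ) (i : ℕ) : G →* Module.End ℂ (F.F (i + 1) ⧸ NN F i) where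
  toFun g := (NN F i).mapQ (NN F i) (rE F (i + 1) g) (NN_le F i g)
  map_one' := by
    ext x
    simp
  map_mul' a b := by
    ext x
    simp

theorem rW_mk (F : Flag ρ) (i : ℕ) (g : G) (x : F.F (i + 1)) :
    rW F i g ((NN F i).mkQ x) = (NN F i).mkQ (rE F (i + 1) g x) := rfl

/-- the quotient is irreducible -/
theorem irr (F : Flag ρ) (i : ℕ) (S : Submodule ℂ (F.F (i + 1) ⧸ NN F i))
    (hS : ∀ g : G, ∀ x ∈ S, rW F i g x ∈ S) (h0 : ∃ x ∈ S, x ≠ 0) : S = ⊤ := by
  set S' : Submodule ℂ V := (S.comap (NN F i).mkQ).map (F.F (i + 1)).subtype with hS'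
  have h1 : F.F i ≤ S' := by
    intro v hv
    have hv' : v ∈ F.F (i + 1) := F.mono (Nat.le_succ i) hv
    refine ⟨⟨v, hv'⟩, ?_, rfl⟩
    show (NN F i).mkQ ⟨v, hv'⟩ ∈ S
    have h2 : (NN F i).mkQ ⟨v, hv'⟩ = 0 := by
      rw [Submodule.mkQ_apply, Submodule.Quotient.mk_eq_zero]
      exact hv
    rw [h2]
    exact S.zero_mem
  have h2 : S' ≤ F.F (i + 1) := by
    rintro _ ⟨x, _, rfl⟩
    exact x.2
  have h3 : ∀ g : G, ∀ v ∈ S', ρ g v ∈ S' := by
    rintro g _ ⟨x, hx, rfl⟩
    exact ⟨rE F (i + 1) g x, hS g _ hx, rfl⟩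
  rcases F.irred i S' h1 h2 h3 with h4 | h4
  · exfalso
    obtain ⟨y, hy, hy0⟩ := h0
    obtain ⟨x, rfl⟩ := (NN F i).mkQ_surjective y
    have h5 : (x : V) ∈ S' := ⟨x, hy, rfl⟩
    rw [h4] at h5
    apply hy0
    rw [Submodule.mkQ_apply, Submodule.Quotient.mk_eq_zero]
    exact h5
  · rw [eq_top_iff]
    rintro y -
    obtain ⟨x, rfl⟩ := (NN F i).mkQ_surjective y
    have h5 : (x : V) ∈ S' := by
      rw [h4]
      exact x.2
    obtain ⟨x', hx', hxx⟩ := h5
    have h6 : x' = x := Subtype.ext hxx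
    rw [← h6]
    exact hx'

theorem step (hE : S_EIG2.{u, v}) [FiniteDimensional ℂ V] (F : Flag ρ)
    (hn : ∃ n : ℕ, ∀ a ∈ derivedSeries G n, ρ a = 1) (i : ℕ) :
    ∃ H : Subgroup G, H.FiniteIndex ∧ ∀ a ∈ H, ∀ b ∈ H, ∀ v ∈ F.F (i + 1),
      ρ (a * b * a⁻¹ * b⁻¹) v - v ∈ F.F i := by
  by_cases hi : F.F i = F.F (i + 1)
  · refine ⟨⊤, inferInstance, fun a _ b _ v hv => ?_⟩
    rw [hi]
    exact (F.F (i + 1)).sub_mem (F.stable (i + 1) _ v hv) hv
  · have hnt : Nontrivial (F.F (i + 1) ⧸ NN F i) := by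
      rw [Submodule.Quotient.nontrivial_iff]
      intro h
      apply hi
      refine le_antisymm (F.mono (Nat.le_succ i)) fun v hv => ?_
      have h1 : (⟨v, hv⟩ : F.F (i + 1)) ∈ NN F i := by
        rw [h]
        exact Submodule.mem_top
      exact h1
    obtain ⟨n, hn⟩ := hn
    have hn' : ∀ a ∈ derivedSeries G n, rW F i a = 1 := by
      intro a ha
      refine LinearMap.ext fun y => ?_
      obtain ⟨x, rfl⟩ := (NN F i).mkQ_surjective y
      rw [rW_mk, Module.End.one_apply]
      congr 1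
      apply Subtype.ext
      rw [rE_apply, hn a ha, Module.End.one_apply]
    obtain ⟨H₀, hH₀, -, w, hw0, hw⟩ := hE G (F.F (i + 1) ⧸ NN F i) (rW F i) ⟨n, hn'⟩
    have hfi : H₀.FiniteIndex := ⟨hH₀⟩
    have hfi' : H₀.normalCore.FiniteIndex := inferInstance
    have hgen : ∀ h ∈ H₀.normalCore, ∀ g : G, ∃ c : ℂ, rW F i h (rW F i g w) = c • rW F i g w := by
      intro h hh g
      have h1 : g⁻¹ * h * g ∈ H₀.normalCore := by
        have h2 := (Subgroup.normalCore_normal H₀).conj_mem h hh g⁻¹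
        rwa [inv_inv] at h2
      obtain ⟨c, hc⟩ := hw _ (Subgroup.normalCore_le H₀ h1)
      refine ⟨c, ?_⟩
      rw [← Module.End.mul_apply, ← map_mul]
      have h3 : h * g = g * (g⁻¹ * h * g) := by group
      rw [h3, map_mul, Module.End.mul_apply, hc, map_smul]
    have hspan : Submodule.span ℂ (Set.range fun g : G => rW F i g w) = ⊤ := by
      refine irr F i _ ?_ ?_
      · intro g x hx
        induction hx using Submodule.span_induction with
        | mem x hx =>
          obtain ⟨g', rfl⟩ := hx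
          apply Submodule.subset_span
          refine ⟨g * g', ?_⟩
          dsimp only
          rw [map_mul, Module.End.mul_apply]
        | zero =>
          rw [map_zero]
          exact Submodule.zero_mem _
        | add x y _ _ h1 h2 =>
          rw [map_add]
          exact Submodule.add_mem _ h1 h2
        | smul c x _ h1 =>
          rw [map_smul]
          exact Submodule.smul_mem _ c h1
      · refine ⟨w, Submodule.subset_span ⟨1, ?_⟩, hw0⟩
        dsimp only
        rw [map_one, Module.End.one_apply]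
    refine ⟨H₀.normalCore, hfi', fun a ha b hb v hv => ?_⟩
    have hab : rW F i (a * b) = rW F i (b * a) := by
      refine LinearMap.ext_on hspan ?_
      rintro _ ⟨g, rfl⟩
      obtain ⟨c, hc⟩ := hgen a ha g
      obtain ⟨e, he⟩ := hgen b hb g
      dsimp only
      rw [map_mul, map_mul, Module.End.mul_apply, Module.End.mul_apply, he, hc, map_smul, map_smul,
        hc, he, smul_comm]
    have hone : rW F i (a * b * a⁻¹ * b⁻¹) = 1 := by
      have h1 : a * b * a⁻¹ * b⁻¹ = (a * b) * (b * a)⁻¹ := by group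
      rw [h1, map_mul, hab, ← map_mul, mul_inv_cancel, map_one]
    have h1 : (NN F i).mkQ (rE F (i + 1) (a * b * a⁻¹ * b⁻¹) ⟨v, hv⟩) = (NN F i).mkQ ⟨v, hv⟩ := by
      rw [← rW_mk, hone, Module.End.one_apply]
    rw [Submodule.mkQ_apply, Submodule.mkQ_apply, Submodule.Quotient.eq] at h1
    exact h1

end

theorem cr : S_CR.{u, v} := by
  intro hE G _ V _ _ _ ρ F hn
  have key : ∀ i : ℕ, ∃ H : Subgroup G, H.FiniteIndex ∧ ∀ a ∈ H, ∀ b ∈ H, ∀ v ∈ F.F (i + 1),
      ρ (a * b * a⁻¹ * b⁻¹) v - v ∈ F.F i := fun i => step hE F hn i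
  choose H hH hc using key
  refine ⟨⨅ i ∈ Finset.range F.l, H i, ?_, ?_⟩
  · exact Subgroup.finiteIndex_iInf' H fun i _ => hH i
  · intro a ha b hb i v hv
    rcases lt_or_ge i F.l with hi | hi
    · have h1 : ∀ x ∈ ⨅ i ∈ Finset.range F.l, H i, x ∈ H i := by
        intro x hx
        rw [Subgroup.mem_iInf] at hx
        have h2 := hx i
        rw [Subgroup.mem_iInf] at h2
        exact h2 (Finset.mem_range.2 hi)
      exact hc i a (h1 a ha) b (h1 b hb) v hv
    · have h1 : F.F i = ⊤ := by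
        rw [eq_top_iff, ← F.top]
        exact F.mono hi
      rw [h1]
      exact Submodule.mem_top

end Pool.Agent.Y220.CT
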